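import Mathlib
import Pool.Agent.V11242.RF.Pol

/-!
# The polarized relation at the dominating number fails after adding random reals

Let `κ` be the dominating number of the ground model, and let `I` be a set with at least `κ` many
elements. The random forcing `Random I`, which adds `I` many random reals, forces that the
dominating number is (the cardinality of) `κ` and that the strong polarized relation for `κ` and
`ω` fails. This holds for every ground model, in particular for those in which the relation for
the dominating number and `ω` is true.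
-/

set_option autoImplicit false

open Cardinal

namespace Pool.Agent.Results.MP_95a70f_lc.RandomPolarized

open Pool.Agent.TH773.PSet Pool.Agent.V11242.RF

/-- A dominating family of the minimal size. -/
theorem exists_dominating : ∃ D : domNumber.ord.ToType → ℕ → ℕ,
    ∀ f : ℕ → ℕ, ∃ l, ∃ N, ∀ n, N ≤ n → f n ≤ D l n := by
  have hne : {c : Cardinal.{0} | ∃ D : Set (ℕ → ℕ), Cardinal.mk D = c ∧
      ∀ f : ℕ → ℕ, ∃ d ∈ D, ∃ N, ∀ n, N ≤ n → f n ≤ d n}.Nonempty :=
    ⟨_, Set.univ, rfl, fun f => ⟨f, Set.mem_univ f, 0, fun _ _ => le_rfl⟩⟩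
  obtain ⟨D, hD, hD'⟩ := csInf_mem hne
  have h1 : Cardinal.mk domNumber.ord.ToType = #D := by
    rw [Cardinal.mk_ord_toType, hD]
    rfl
  obtain ⟨e⟩ := Cardinal.eq.1 h1
  refine ⟨fun l => (e l).1, fun f => ?_⟩
  obtain ⟨d, hd, hd'⟩ := hD' f
  exact ⟨e.symm ⟨d, hd⟩, by simpa using hd'⟩

theorem exists_not_dominated {L : Type} (hL : #L < domNumber) (D : L → ℕ → ℕ) :
    ∃ g : ℕ → ℕ, ∀ l, ¬ ∃ N, ∀ n, N ≤ n → g n ≤ D l n := by
  by_contra hcon
  push Not at hcon
  have h1 : domNumber ≤ #(Set.range D) := by
    refine csInf_le' ⟨Set.range D, rfl, fun f => ?_⟩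
    obtain ⟨l, hl⟩ := hcon f
    exact ⟨D l, ⟨l, rfl⟩, hl⟩
  exact absurd (h1.trans Cardinal.mk_range_le) (not_le.2 hL)

theorem aleph0_lt_domNumber : ℵ₀ < domNumber := by
  by_contra hle
  obtain ⟨D, hD⟩ := exists_dominating
  have h1 : Countable domNumber.ord.ToType := by
    rw [← Cardinal.mk_le_aleph0_iff, Cardinal.mk_ord_toType]
    exact not_lt.1 hle
  obtain ⟨l0, -⟩ := hD fun _ => 0
  have : Nonempty domNumber.ord.ToType := ⟨l0⟩
  obtain ⟨s, hs⟩ := exists_surjective_nat domNumber.ord.ToType
  obtain ⟨l, N, hN⟩ := hD fun n => ∑ i ∈ Finset.range (n + 1), D (s i) n + 1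
  obtain ⟨i, rfl⟩ := hs l
  have h2 := hN (max N i) (le_max_left _ _)
  have h3 : D (s i) (max N i) ≤ ∑ j ∈ Finset.range (max N i + 1), D (s j) (max N i) :=
    Finset.single_le_sum (f := fun j => D (s j) (max N i)) (fun _ _ => Nat.zero_le _)
      (Finset.mem_range.2 (Nat.lt_succ_of_le (le_max_right N i)))
  omega

/-- Let `κ` be the dominating number (of the ground model). For every set `I` with at least `κ`
elements, all conditions of the random forcing for adding `I` many random reals force that the
dominating number is `κ` and that the polarized relation for `κ` and `ω` fails. -/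
theorem result (I : Type) (hI : domNumber ≤ #I) (p : Random I) :
    p ∈ fand (DominatingIs (Random I) domNumber.ord.ToType)
      (fnot (Polarized (Random I) domNumber.ord.ToType)) := by
  refine ⟨⟨?_, fun a => ?_⟩, ?_⟩
  · obtain ⟨D, hD⟩ := exists_dominating
    exact hasDominating D hD p
  · refine not_hasDominating (fun D => exists_not_dominated ?_ D) p
    exact Cardinal.mk_Iio_toType_ord_lt a
  · haveI : Uncountable domNumber.ord.ToType := by
      rw [← Cardinal.aleph0_lt_mk_iff, Cardinal.mk_ord_toType]
      exact aleph0_lt_domNumber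
    have h1 : Cardinal.mk domNumber.ord.ToType ≤ #I := by
      rw [Cardinal.mk_ord_toType]
      exact hI
    obtain ⟨e⟩ := h1
    exact not_polarized e p

end Pool.Agent.Results.MP_95a70f_lc.RandomPolarized
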